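import Pool.Agent.T2h62.H15.Base

/-!
Limits of families of lines.
-/

set_option autoImplicit false

open FF MvPolynomial Pool.Agent.Z15.H

namespace Pool.Agent.T2h62.H15

section

variable {k : Type} [Field k] [IsAlgClosed k] [CharZero k] {E : Type} [Field E] [Algebra k E] [IsFF k E]
  {t : Place k E} {ι : Type}

/-- regular combinations of regular independent vectors -/
theorem comb {A B : ι → E} (hA : ∀ i, t.Reg (A i)) (hB : ∀ i, t.Reg (B i))
    (hli : LinearIndependent k ![fun i => ev t (A i), fun i => ev t (B i)]) {l m : E}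
    (h : ∀ i, t.Reg (l * A i + m * B i)) : t.Reg l ∧ t.Reg m ∧
      ∀ i, ev t (l * A i + m * B i) = ev t l * ev t (A i) + ev t m * ev t (B i) := by
  obtain ⟨i, j, hij⟩ := exists_minor hli
  have e1 : t.Reg (A i * B j - A j * B i) := reg_sub (t.reg_mul (hA i) (hB j)) (t.reg_mul (hA j) (hB i))
  have e2 : ev t (A i * B j - A j * B i) ≠ 0 := by
    rw [ev_sub (t.reg_mul (hA i) (hB j)) (t.reg_mul (hA j) (hB i)), ev_mul (hA i) (hB j),
      ev_mul (hA j) (hB i)]
    exact hij
  obtain ⟨hM, -, hinv⟩ := reg_inv_of_ev e1 e2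
  have hl : t.Reg l := by
    have h1 : l = ((l * A i + m * B i) * B j - (l * A j + m * B j) * B i) * (A i * B j - A j * B i)⁻¹ := by
      rw [eq_mul_inv_iff_mul_eq₀ hM]; ring
    rw [h1]
    exact t.reg_mul (reg_sub (t.reg_mul (h i) (hB j)) (t.reg_mul (h j) (hB i))) hinv
  have hm : t.Reg m := by
    have h1 : m = (A i * (l * A j + m * B j) - A j * (l * A i + m * B i)) * (A i * B j - A j * B i)⁻¹ := by
      rw [eq_mul_inv_iff_mul_eq₀ hM]; ring
    rw [h1]
    exact t.reg_mul (reg_sub (t.reg_mul (hA i) (h j)) (t.reg_mul (hA j) (h i))) hinv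
  refine ⟨hl, hm, fun n => ?_⟩
  rw [ev_add (t.reg_mul hl (hA n)) (t.reg_mul hm (hB n)), ev_mul hl (hA n), ev_mul hm (hB n)]

/-- regular vectors in the span of `A`, `B` reduce to vectors in the span of the limit -/
theorem lim_mem {A B : ι → E} {a b : ι → k} (hlim : IsLim t A B a b) {c c' : E} {w : ι → k}
    (h : ∀ i, t.Reg (c * A i + c' * B i) ∧ t.red (c * A i + c' * B i) = algebraMap k t.RF (w i)) :
    w ∈ Submodule.span k {a, b} := by
  obtain ⟨hli, p, q, r, s, hD, hA, hB⟩ := hlim
  have ha : (fun i => ev t (p * A i + q * B i)) = a := funext fun i => ev_unique (hA i).2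
  have hb : (fun i => ev t (r * A i + s * B i)) = b := funext fun i => ev_unique (hB i).2
  have hw : (fun i => ev t (c * A i + c' * B i)) = w := funext fun i => ev_unique (h i).2
  have key : ∀ i, c * A i + c' * B i = ((c * s - c' * r) / (p * s - q * r)) * (p * A i + q * B i) +
      ((c' * p - c * q) / (p * s - q * r)) * (r * A i + s * B i) := by
    intro i
    rw [div_mul_eq_mul_div, div_mul_eq_mul_div, ← add_div, eq_div_iff hD]
    ring
  have h1 := comb (A := fun i => p * A i + q * B i) (B := fun i => r * A i + s * B i)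
    (fun i => (hA i).1) (fun i => (hB i).1) (by rw [ha, hb]; exact hli)
    (l := (c * s - c' * r) / (p * s - q * r)) (m := (c' * p - c * q) / (p * s - q * r)) (fun i => by
      rw [← key]
      exact (h i).1)
  rw [Submodule.mem_span_pair]
  refine ⟨ev t ((c * s - c' * r) / (p * s - q * r)), ev t ((c' * p - c * q) / (p * s - q * r)), ?_⟩
  rw [← hw]
  funext i
  rw [key, h1.2.2 i]
  simp only [Pi.add_apply, Pi.smul_apply, smul_eq_mul, ← congrFun ha i, ← congrFun hb i]

omit [IsAlgClosed k] [CharZero k] [IsFF k E] in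
/-- homogeneous forms are homogeneous functions -/
theorem aeval_smul {R : Type} [CommRing R] [Algebra k R] {F : MvPolynomial ι k} {d : ℕ} (hF : F.IsHomogeneous d)
    (c : R) (v : ι → R) : aeval (fun i => c * v i) F = c ^ d * aeval v F := by
  rw [aeval_def, aeval_def, eval₂_eq, eval₂_eq, Finset.mul_sum]
  refine Finset.sum_congr rfl fun m hm => ?_
  have h1 : m.degree = d := by
    rw [← hF (mem_support_iff.1 hm), Finsupp.degree_eq_weight_one]
    rfl
  have h2 : ∏ i ∈ m.support, (c * v i) ^ m i = c ^ d * ∏ i ∈ m.support, v i ^ m i := by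
    simp only [mul_pow]
    rw [Finset.prod_mul_distrib, Finset.prod_pow_eq_pow_sum]
    congr 2
  rw [h2]
  ring

omit [IsAlgClosed k] [IsFF k E] in
/-- if `F` vanishes on the line through `A` and `B`, it vanishes on the span -/
theorem vanish_span {F : MvPolynomial ι k} {d : ℕ} (hF : F.IsHomogeneous d) {A B : ι → E}
    (h : ∀ s : E, aeval (fun i => A i + s * B i) F = 0) (x y : E) :
    aeval (fun i => x * A i + y * B i) F = 0 := by
  have hchar : CharZero E := charZero_of_injective_algebraMap (algebraMap k E).injective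
  by_cases hx : x = 0
  · subst hx
    -- the polynomial `F (B + s A)`
    set P : Polynomial E := aeval (fun i => Polynomial.C (B i) + Polynomial.X * Polynomial.C (A i)) F with hP
    have hev : ∀ s : E, P.eval s = aeval (fun i => B i + s * A i) F := by
      intro s
      have h1 : (Polynomial.evalRingHom s) P = P.eval s := rfl
      rw [← h1, hP, aeval_def, aeval_def, ← coe_eval₂Hom, ← coe_eval₂Hom, map_eval₂Hom]
      congr 2
      · ext r
        simp [Polynomial.algebraMap_apply]
      · ext i
        simp
        exact mul_comm _ _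
    have hroot : ∀ s : E, s ≠ 0 → P.eval s = 0 := by
      intro s hs
      rw [hev]
      have h1 : (fun i => B i + s * A i) = fun i => s * (A i + s⁻¹ * B i) := by
        funext i
        field_simp
        ring
      rw [h1, aeval_smul hF, h, mul_zero]
    have hP0 : P = 0 := by
      apply Polynomial.eq_zero_of_infinite_isRoot
      refine Set.Infinite.mono (s := {s : E | s ≠ 0}) (fun s hs => hroot s hs) ?_
      have : {s : E | s ≠ 0} = ({0} : Set E)ᶜ := by ext; simp
      rw [this]
      exact (Set.finite_singleton 0).infinite_compl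
    have h2 : aeval (fun i => B i + 0 * A i) F = 0 := by rw [← hev, hP0, Polynomial.eval_zero]
    have h3 : (fun i => 0 * A i + y * B i) = fun i => y * (B i + 0 * A i) := by
      funext i
      ring
    rw [h3, aeval_smul hF, h2, mul_zero]
  · have h1 : (fun i => x * A i + y * B i) = fun i => x * (A i + (y / x) * B i) := by
      funext i
      field_simp
    rw [h1, aeval_smul hF, h, mul_zero]

/-- equations specialise to the limits -/
theorem lim_vanish {F : MvPolynomial ι k} {d : ℕ} (hF : F.IsHomogeneous d) {A B : ι → E} {a b : ι → k}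
    (hlim : IsLim t A B a b) (h : ∀ s : E, aeval (fun i => A i + s * B i) F = 0) (α β : k) :
    eval (fun i => α * a i + β * b i) F = 0 := by
  obtain ⟨hli, p, q, r, s, hD, hA, hB⟩ := hlim
  have h1 : ∀ i, t.Reg (algebraMap k E α * (p * A i + q * B i) + algebraMap k E β * (r * A i + s * B i)) :=
    fun i => t.reg_add (t.reg_mul (t.reg_const _) (hA i).1) (t.reg_mul (t.reg_const _) (hB i).1)
  have h2 := reg_aeval h1 F
  have h3 : (fun i => algebraMap k E α * (p * A i + q * B i) + algebraMap k E β * (r * A i + s * B i)) =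
      fun i => (algebraMap k E α * p + algebraMap k E β * r) * A i +
        (algebraMap k E α * q + algebraMap k E β * s) * B i := by
    funext i
    ring
  have h4 : (fun i => ev t (algebraMap k E α * (p * A i + q * B i) +
      algebraMap k E β * (r * A i + s * B i))) = fun i => α * a i + β * b i := by
    funext i
    rw [ev_add (t.reg_mul (t.reg_const _) (hA i).1) (t.reg_mul (t.reg_const _) (hB i).1),
      ev_mul (t.reg_const _) (hA i).1, ev_mul (t.reg_const _) (hB i).1, ev_const, ev_const,
      ev_unique (hA i).2, ev_unique (hB i).2]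
  rw [← h4, ← h2.2, h3, vanish_span hF h, ev_zero]

end

/-- LIM -/
theorem t_LIM : Stm.T_LIM := by
  intro k _ _ _ ι E _ _ _ _ A B _ t a b hlim
  refine ⟨fun c c' w h => lim_mem hlim h, fun F h hF α β => ?_, fun a' b' ha hb h => line_eq_of_mem ha hb h⟩
  obtain ⟨d, hF⟩ := hF
  exact lim_vanish hF hlim (fun s => h E s) α β

end Pool.Agent.T2h62.H15
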